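import Pool.Agent.TH107.MV.Spec

/-!
Group rings without zero divisors and skew fields: reduction to finitely generated groups and finite
fields.
-/

set_option autoImplicit false

namespace Pool.Agent.Results.MP_9f87c4_al.FiniteFields

/-- The group ring `K[G]` embeds in a skew field. -/
def Embeds (K : Type) [Field K] (G : Type) [Group G] : Prop :=
  ∃ (D : Type) (_ : DivisionRing D) (φ : MonoidAlgebra K G →+* D), Function.Injective φ

private theorem emb_iff (K : Type) [Field K] (G : Type) [Group G] :
    Embeds K G ↔ Pool.Agent.TH107.MV.Emb K G := Iff.rfl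

private theorem emb_equiv {K L : Type} [Field K] [Field L] (e : K ≃+* L) {G : Type} [Group G]
    (h : Embeds L G) : Embeds K G := by
  obtain ⟨D, _, φ, hφ⟩ := h
  refine ⟨D, inferInstance, φ.comp (MonoidAlgebra.mapRingHom G e.toRingHom), hφ.comp ?_⟩
  intro x y hxy
  apply MonoidAlgebra.ext
  ext g
  have h1 : (MonoidAlgebra.mapRingHom G e.toRingHom x).coeff g =
      (MonoidAlgebra.mapRingHom G e.toRingHom y).coeff g := by rw [hxy]
  rw [MonoidAlgebra.coeff_mapRingHom, MonoidAlgebra.coeff_mapRingHom] at h1
  exact e.injective h1

private theorem domain_sub {K : Type} [Field K] (K₀ : Subfield K) {G : Type} [Group G]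
    (H : Subgroup G) (h : NoZeroDivisors (MonoidAlgebra K G)) :
    NoZeroDivisors (MonoidAlgebra K₀ H) := by
  let f : MonoidAlgebra K₀ H →+* MonoidAlgebra K G :=
    (MonoidAlgebra.mapDomainRingHom K H.subtype).comp (MonoidAlgebra.mapRingHom H K₀.subtype)
  have h1 : Function.Injective (MonoidAlgebra.mapDomainRingHom K H.subtype) :=
    MonoidAlgebra.mapDomain_injective H.subtype_injective
  have h2 : Function.Injective (MonoidAlgebra.mapRingHom H K₀.subtype) := by
    intro x y hxy
    apply MonoidAlgebra.ext
    ext g
    have h1 : (MonoidAlgebra.mapRingHom H K₀.subtype x).coeff g =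
        (MonoidAlgebra.mapRingHom H K₀.subtype y).coeff g := by
      rw [hxy]
    rw [MonoidAlgebra.coeff_mapRingHom, MonoidAlgebra.coeff_mapRingHom] at h1
    exact h1
  have hf : Function.Injective f := h1.comp h2
  exact hf.noZeroDivisors f f.map_zero f.map_mul

private theorem fg_closure {K : Type} [Field K] (T : Finset K) :
    ∃ S : Finset (Subfield.closure (T : Set K)),
      Subfield.closure (S : Set (Subfield.closure (T : Set K))) = ⊤ := by
  classical
  set K₀ := Subfield.closure (T : Set K) with hK₀
  refine ⟨T.attach.image fun x => ⟨x.1, Subfield.subset_closure x.2⟩, ?_⟩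
  set S : Finset K₀ := T.attach.image fun x => ⟨x.1, Subfield.subset_closure x.2⟩ with hS
  have h1 : (Subfield.closure (S : Set K₀)).map K₀.subtype = K₀ := by
    rw [RingHom.map_field_closure]
    have h2 : (K₀.subtype '' (S : Set K₀)) = (T : Set K) := by
      ext x
      constructor
      · rintro ⟨y, hy, rfl⟩
        rw [hS, Finset.mem_coe, Finset.mem_image] at hy
        obtain ⟨z, -, rfl⟩ := hy
        exact z.2
      · intro hx
        refine ⟨⟨x, Subfield.subset_closure hx⟩, ?_, rfl⟩
        rw [hS, Finset.mem_coe, Finset.mem_image]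
        exact ⟨⟨x, hx⟩, Finset.mem_attach _ _, rfl⟩
    rw [h2]
  rw [eq_top_iff]
  intro x _
  have h2 : (x : K) ∈ (Subfield.closure (S : Set K₀)).map K₀.subtype := by
    rw [h1]
    exact x.2
  obtain ⟨y, hy, hyx⟩ := h2
  rwa [← Subtype.ext hyx]

private theorem embeds_of_fg {K : Type} [Field K] {G : Type} [Group G]
    (h : ∀ (T : Finset K) (H : Subgroup G), H.FG → Embeds (Subfield.closure (T : Set K)) H) :
    Embeds K G := by
  apply Pool.Agent.TH107.MV.emb_local
  intro H hH
  refine Pool.Agent.TH107.MV.emb_spec
    (fun F _ => ∃ T : Finset K, Nonempty (F ≃+* Subfield.closure (T : Set K))) ?_ ?_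
  · intro T
    refine ⟨(Subfield.closure (T : Set K)).toSubring, fun x hx => Subfield.subset_closure hx,
      Subfield.closure (T : Set K), inferInstance, RingHom.id _, ⟨T, ⟨RingEquiv.refl _⟩⟩, ?_⟩
    intro x _ hx
    exact hx
  · rintro F _ ⟨T, ⟨e⟩⟩
    exact emb_equiv e (h T H hH)

/-- 1. If there are a group `G` and a field `K` such that `K[G]` has no zero divisors and does not
embed in a skew field, then there are such a finitely generated group `G` and such a field `K`
finitely generated as a field.
2. Let `G` be any group and `p` a prime. If `F[H]` embeds in a skew field for each finite field `F`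
of characteristic `p` and each finitely generated subgroup `H` of `G`, then `K[G]` embeds in a skew
field for each field `K` of characteristic `p`.
3. Let `G` be any group and `P` an infinite set of primes. If `F[H]` embeds in a skew field for each
finite field `F` of characteristic in `P` and each finitely generated subgroup `H` of `G`, then
`K[G]` embeds in a skew field for each field `K` of characteristic zero.
4. If there are a group `G` such that `F[G]` has no zero divisors for all finite fields `F` and a
field `K` such that `K[G]` does not embed in a skew field, then there are a finitely generated such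
group `G` and a finite such field `K`.
5. The same for groups with unique products (whose group rings over fields never have zero
divisors). -/
theorem result :
    ((∃ (G : Type) (_ : Group G) (K : Type) (_ : Field K),
        NoZeroDivisors (MonoidAlgebra K G) ∧ ¬ Embeds K G) →
      ∃ (G : Type) (_ : Group G) (K : Type) (_ : Field K), Group.FG G ∧
        (∃ S : Finset K, Subfield.closure (S : Set K) = ⊤) ∧
        NoZeroDivisors (MonoidAlgebra K G) ∧ ¬ Embeds K G) ∧
    (∀ (G : Type) [Group G] (p : ℕ), p.Prime →
      (∀ H : Subgroup G, H.FG → ∀ (F : Type) [Field F] [Finite F] [CharP F p], Embeds F H) →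
      ∀ (K : Type) [Field K] [CharP K p], Embeds K G) ∧
    (∀ (G : Type) [Group G] (P : Set ℕ), P.Infinite → (∀ p ∈ P, p.Prime) →
      (∀ p ∈ P, ∀ H : Subgroup G, H.FG → ∀ (F : Type) [Field F] [Finite F] [CharP F p],
        Embeds F H) →
      ∀ (K : Type) [Field K] [CharZero K], Embeds K G) ∧
    ((∃ (G : Type) (_ : Group G) (K : Type) (_ : Field K),
        (∀ (F : Type) [Field F] [Finite F], NoZeroDivisors (MonoidAlgebra F G)) ∧ ¬ Embeds K G) →
      ∃ (G : Type) (_ : Group G) (K : Type) (_ : Field K), Group.FG G ∧ Finite K ∧
        (∀ (F : Type) [Field F] [Finite F], NoZeroDivisors (MonoidAlgebra F G)) ∧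
        ¬ Embeds K G) ∧
    ((∃ (G : Type) (_ : Group G) (K : Type) (_ : Field K), UniqueProds G ∧ ¬ Embeds K G) →
      ∃ (G : Type) (_ : Group G) (K : Type) (_ : Field K), Group.FG G ∧ Finite K ∧
        UniqueProds G ∧ ¬ Embeds K G) := by
  have hp : ∀ (G : Type) [Group G] (p : ℕ), p.Prime →
      (∀ H : Subgroup G, H.FG → ∀ (F : Type) [Field F] [Finite F] [CharP F p], Embeds F H) →
      ∀ (K : Type) [Field K] [CharP K p], Embeds K G := by
    intro G _ p hp h K _ _
    exact Pool.Agent.TH107.MV.emb_char hp h
  have h0 : ∀ (G : Type) [Group G] (P : Set ℕ), P.Infinite → (∀ p ∈ P, p.Prime) →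
      (∀ p ∈ P, ∀ H : Subgroup G, H.FG → ∀ (F : Type) [Field F] [Finite F] [CharP F p],
        Embeds F H) →
      ∀ (K : Type) [Field K] [CharZero K], Embeds K G := by
    intro G _ P hP hprime h K _ _
    exact Pool.Agent.TH107.MV.emb_zero P hP hprime h
  have hall : ∀ (G : Type) [Group G] (K : Type) [Field K],
      (∀ H : Subgroup G, H.FG → ∀ (F : Type) [Field F] [Finite F], Embeds F H) → Embeds K G := by
    intro G _ K _ h
    rcases CharP.exists' K with hz | ⟨p, hp1, hK⟩
    · exact h0 G {p | p.Prime} Nat.infinite_setOf_prime (fun p hp => hp)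
        (fun p _ H hH F _ _ _ => h H hH F) K
    · exact hp G p hp1.out (fun H hH F _ _ _ => h H hH F) K
  refine ⟨?_, hp, h0, ?_, ?_⟩
  · rintro ⟨G, _, K, _, hd, hne⟩
    by_contra hcon
    apply hne
    apply embeds_of_fg
    intro T H hH
    by_contra hne'
    exact hcon ⟨H, inferInstance, Subfield.closure (T : Set K), inferInstance,
      (Group.fg_iff_subgroup_fg H).2 hH, fg_closure T, domain_sub _ H hd, hne'⟩
  · rintro ⟨G, _, K, _, hd, hne⟩
    by_contra hcon
    apply hne
    apply hall
    intro H hH F _ _
    by_contra hne'
    refine hcon ⟨H, inferInstance, F, inferInstance, (Group.fg_iff_subgroup_fg H).2 hH,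
      inferInstance, ?_, hne'⟩
    intro F' _ _
    have hd' := hd F'
    exact (MonoidAlgebra.mapDomain_injective (R := F') H.subtype_injective).noZeroDivisors
      (MonoidAlgebra.mapDomainRingHom F' H.subtype) (map_zero _) (map_mul _)
  · rintro ⟨G, _, K, _, hd, hne⟩
    by_contra hcon
    apply hne
    apply hall
    intro H hH F _ _
    by_contra hne'
    exact hcon ⟨H, inferInstance, F, inferInstance, (Group.fg_iff_subgroup_fg H).2 hH,
      inferInstance, UniqueProds.of_injective_mulHom (H.subtype : H →ₙ* G) H.subtype_injective hd,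
      hne'⟩

end Pool.Agent.Results.MP_9f87c4_al.FiniteFields
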